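import Pool.Agent.Results.MP_122e00_nt.PowerSavingShifts
import Pool.Agent.U569.APL.EnX

/-!
# Correlations of the divisor functions with a power saving, for ALL the shifts near almost all members of families
formed from ARBITRARY sets

Let `R ≥ 1`. `num y` is the integer with the digits `y 0, …, y (R - 1)` in base `q`, for a vector `y` of residues modulo
`q` (the least residue, if `R = 1`). `FlatRes κ q s y`: the nontrivial Fourier coefficients of the family `y i`, `i ∈ s`, of
vectors modulo `q` are at most `q ^ (-κ)`. For all but `N ^ (-δ) |s|` of the `i ∈ s` ALL the shifts `h ≠ 0` at a distance of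
at most `N ^ δ` from `c + num (y i)` satisfy the asymptotic formula for the sum of `d_r(n) d_r(n + h)` with a power saving,
for all `x ≤ N`, where `q ^ R` is between `N ^ (1 - δ)` and `B N` and `c` is any integer with `|c| ≤ B N`.

Examples modulo large primes `P` (`ExamplesR`): `R = 1` and `y = x z + u(x) + w(z)`, `x` and `z` in ARBITRARY sets `E`, `F`
of residues with `|E| |F| ≥ P ^ (1 + δ)`, `u` and `w` arbitrary functions; bilinear maps at the elements of arbitrary sets of
vectors; products of the elements of arbitrary subsets of the field of `P ^ R` elements; polynomials on products of arbitrary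
sets of at least `P ^ (1 / 2 + δ)` residues, plus arbitrary functions of the single variables; polynomials in one
variable on subgroups of order at least `P ^ (1 / 2 + δ)`, for example the elements of these subgroups. So the shifts run
through sets without any regularity. The earlier results of this problem on thin sets of shifts treat values of
polynomials, multilinear forms (without reduction modulo `P`), functions of higher convexity, digit sets, random sets.

Proof: exponential sums on arbitrary sets (`U569/APL`), the additive energy of integers whose digits are the coordinates of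
the vectors (orthogonality modulo `q` and the few possibilities for the carries, `U569/APL/En`); then part (1) of the starting
result `PowerSavingShifts` is applied for every distance of the shift from the member (`U569/APL/EnX`).
-/

set_option autoImplicit false

namespace Pool.Agent.Results.MP_122e00_nt.ArbitrarySets

open Finset Polynomial
open Pool.Agent.Results.MP_122e00_nt.PowerSavingShifts (κ ram 𝔖 Density G Asymp energy)
open Pool.Agent.U569.APL (FlatRes num ExamplesR examplesR near_flat)

open Classical in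
/-- **Correlations of the divisor functions for all the shifts near almost all members of families formed from arbitrary
sets.** The first two parts (the polynomials `P_q` and `T_h`) are from the starting result `PowerSavingShifts`. -/
theorem result (r : ℕ) (hr : 2 ≤ r) : ∃ (P : ℕ → ℝ[X]) (T : ℤ → ℝ[X]),
    (Density r P ∧ (∀ q, 1 ≤ q → (P q).natDegree = r - 1 ∧ (P q).leadingCoeff = κ (r - 1) q / ((r - 1).factorial : ℝ)) ∧
      ∀ ε : ℝ, 0 < ε → ∃ C : ℝ, ∀ q i : ℕ, 1 ≤ q → |(P q).coeff i| ≤ C * (q : ℝ) ^ (ε - 1)) ∧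
    (∀ h : ℤ, h ≠ 0 → (∀ u v : ℝ, Summable (fun q : ℕ => (ram (q + 1) h : ℝ) * ((P (q + 1)).eval u * (P (q + 1)).eval v))) ∧
      (∀ u : ℝ, (T h).eval u + (derivative (T h)).eval u = G P h u u) ∧
      (T h).natDegree = 2 * r - 2 ∧ (T h).leadingCoeff = 𝔖 r h / ((r - 1).factorial : ℝ) ^ 2) ∧
    (∀ (R B : ℕ) (κ' : ℝ), 0 < κ' → ∃ θ δ : ℝ, 0 < θ ∧ 0 < δ ∧ ∀ η : ℝ, 0 < η → η ≤ θ → ∃ N₀ : ℕ, ∀ N : ℕ, N₀ ≤ N →
      ∀ (q : ℕ) [NeZero q], (N : ℝ) ^ (1 - δ) ≤ (q : ℝ) ^ R → (q : ℝ) ^ R ≤ B * N →
      ∀ (τ : Type) (s : Finset τ) (y : τ → Fin R → ZMod q), FlatRes κ' q s y → ∀ c : ℤ, |c| ≤ (B : ℤ) * N →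
      ((s.filter fun i => ¬ ∀ h : ℤ, h ≠ 0 → |(h : ℝ) - ((c : ℝ) + (num (y i) : ℕ))| ≤ (N : ℝ) ^ δ →
        Asymp r N P T θ η h).card : ℝ) ≤ (N : ℝ) ^ (-δ) * s.card) ∧
    ∀ R : ℕ, ExamplesR R := by
  obtain ⟨P, T, h0, h1, h2, -⟩ := Pool.Agent.Results.MP_122e00_nt.PowerSavingShifts.result r hr
  refine ⟨P, T, h0, h1, fun R B κ' hκ => ?_, fun R => examplesR R⟩
  obtain ⟨p, _, h3⟩ := near_flat κ' hκ R
  obtain ⟨θ, hθ, h4⟩ := h2 p (2 * B + 1)
  obtain ⟨δ, hδ, _, _, n1, h5⟩ := h3 B θ hθ
  refine ⟨θ, δ, hθ, hδ, fun η hη hηθ => ?_⟩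
  obtain ⟨n2, h6⟩ := h4 η hη hηθ
  refine ⟨n1 + n2, fun N hN q _ hq1 hq2 τ s y hy c hc => ?_⟩
  refine h5 N (by omega) (fun h => h ≠ 0 ∧ ¬ Asymp r N P T θ η h) ?_ q hq1 hq2 τ s y hy c hc _ (filter_subset _ _) ?_
  · intro ι _ v hv hE S hS
    refine le_trans ?_ (h6 N (by omega) ι v (fun i => by have := hv i; exact_mod_cast this) hE)
    apply Nat.cast_le.2
    apply card_le_card
    intro i hi
    rw [mem_filter]
    exact ⟨mem_univ _, hS i hi⟩
  · intro i hi
    have h7 := (mem_filter.1 hi).2
    push Not at h7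
    obtain ⟨h, h8, h9, h10⟩ := h7
    exact ⟨h, h9, h8, h10⟩

end Pool.Agent.Results.MP_122e00_nt.ArbitrarySets
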