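import Pool.Agent.Results.MP_122e00_nt.PowerSavingShifts
import Pool.Agent.U108.PS.A

/-!
# Correlations of the divisor functions with a power saving, for almost all shifts among the values of polynomials in several
# variables at integers with restricted digits

The shifts are `c + F(n)`, where `F` is any polynomial of total degree `d ≥ 2` with integer coefficients, in any number of
variables, and the variables run through the integers `< b ^ k` whose digits in base `b` are restricted to arbitrary sets of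
at least two digits (so that the number of the shifts can be as small as `2 ^ k` for shifts up to `b ^ (d k)`, an arbitrarily
small power).

Definitions used: from `Pool.Agent.Results.MP_122e00_nt.PowerSavingShifts` (starting files): the divisor functions `d`, the
sums `D`, the Ramanujan sums `ram`, the densities `κ`, the singular series `𝔖`, `Density`, `G`, `main`, `Asymp`; from
`Pool.Agent.TH872.GQ` (starting files): `S b E k`: the integers `0 ≤ n < b ^ k` whose `i`-th digit in base `b` lies in `E i`,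
for all `i < k`; from `Pool.Agent.U108.DP` (own): `Bo b k D`: the tuples `n` of natural numbers with `n j ∈ S b (D j) k` for
all `j`; `val F n`: the value of the polynomial `F` at the tuple `n`.

Proof: the energy theorem `Pool.Agent.U108.DP.poly_energy` (a multilinear inequality of Weyl type for disjoint windows of
digits shows that the values have an additive energy of high order which is minimal up to a constant), and the theorem of the
starting files on thin families (part (1) of `PowerSavingShifts`).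
-/

set_option autoImplicit false

namespace Pool.Agent.Results.MP_122e00_nt.DigitPolynomialShifts

open Finset Polynomial Pool.Agent.Results.MP_122e00_nt.PowerSavingShifts
open Pool.Agent.U108.DP (Bo val exists_top eval_le Bo_lt)

lemma asymp_mono (r N : ℕ) (hN : 1 ≤ N) (P : ℕ → ℝ[X]) (T : ℤ → ℝ[X]) (θ θ' η : ℝ) (hθ : θ' ≤ θ) (h : ℤ)
    (hA : Asymp r N P T θ η h) : Asymp r N P T θ' η h := by
  intro x hx
  obtain ⟨h1, h2⟩ := hA x hx
  exact ⟨h1.trans (Real.rpow_le_rpow_of_exponent_le (by exact_mod_cast hN) (by linarith)), h2⟩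

open Classical in
/-- The asymptotic formula `Asymp r N P T θ η h` holds for `h = v(i) ≠ 0`, for all `i` with at most `N ^ (-θ) #ι` exceptions. -/
def AlmostAll (r N : ℕ) (P : ℕ → ℝ[X]) (T : ℤ → ℝ[X]) (θ η : ℝ) {ι : Type} [Fintype ι] (v : ι → ℤ) : Prop :=
  ((univ.filter (fun i : ι => v i ≠ 0 ∧ ¬ Asymp r N P T θ η (v i))).card : ℝ) ≤ (N : ℝ) ^ (-θ) * Fintype.card ι

lemma almost_mono (r N : ℕ) (hN : 1 ≤ N) (P : ℕ → ℝ[X]) (T : ℤ → ℝ[X]) (θ θ' η : ℝ) (hθ : θ' ≤ θ) {ι : Type} [Fintype ι]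
    (v : ι → ℤ) (h : AlmostAll r N P T θ η v) : AlmostAll r N P T θ' η v := by
  classical
  unfold AlmostAll at h ⊢
  have h1 : ((univ.filter (fun i : ι => v i ≠ 0 ∧ ¬ Asymp r N P T θ' η (v i))).card : ℝ) ≤
      ((univ.filter (fun i : ι => v i ≠ 0 ∧ ¬ Asymp r N P T θ η (v i))).card : ℝ) := by
    apply Nat.cast_le.2
    apply card_le_card
    intro i hi
    rw [mem_filter] at hi ⊢
    exact ⟨mem_univ _, hi.2.1, fun hg => hi.2.2 (asymp_mono r N hN P T θ θ' η hθ (v i) hg)⟩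
  refine h1.trans (h.trans ?_)
  apply mul_le_mul_of_nonneg_right _ (Nat.cast_nonneg _)
  exact Real.rpow_le_rpow_of_exponent_le (by exact_mod_cast hN) (by linarith)

/-- The sets `D j i`, `i < k`, are sets of at least two digits in base `b`. -/
def Digits {J : Type} (b k : ℕ) (D : J → ℕ → Finset ℕ) : Prop := ∀ j, ∀ i < k, D j i ⊆ range b ∧ 2 ≤ (D j i).card

/-- Let `r ≥ 2`. There are polynomials `P_q` (`q ≥ 1`) and `T_h` (`h ≠ 0`) with the following properties.

(0) `P_q` is the density of `d_r(n) e(b n / q)`, `(b, q) = 1`; it has degree `r - 1`, leading coefficient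
`κ_{r - 1}(q) / (r - 1)!`, and coefficients `O(q ^ (ε - 1))`. For `h ≠ 0` the series `G_h(u, v) = ∑ c_q(h) P_q(u) P_q(v)`
converges absolutely; `T_h(u) + T_h'(u) = G_h(u, u)`; `T_h` has degree `2 r - 2` and leading coefficient
`𝔖_r(h) / ((r - 1)!) ^ 2`.

`AlmostAll` below means: for all the shifts `h = v(i) ≠ 0` of the family `v`, except for at most the share `N ^ (-θ)`, for
ALL `x ≤ N`: `D_r(x; h) = ∑ G_h(log n, log(n + h)) + O(N ^ (1 - θ))` (the sum over `n ≤ x` with `n + h ≥ 1`) and, if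
`|h| ≤ N ^ (1 - η)`, `D_r(x; h) = x T_h(log x) + O(N ^ (1 - η / 8))`, with implied constants `1`.

(1) Let `b ≥ 2`, `d ≥ 2` and `B` be fixed. There is `θ > 0` such that for every `0 < η ≤ θ`, every large `k` and all `N` with
`b ^ (d k) ≤ N ≤ b ^ ((1 + θ) d k)`: let `J` be any finite set of variables, let `D j i` be any sets of at least two digits,
and let `F` be a polynomial of total degree `d` with a nonzero coefficient of degree `d` of absolute value at most
`b ^ (θ k)`, and `c` an integer, `|c + F(n)| ≤ B N` on the box `Bo b k D`. Then `AlmostAll` holds for the family `c + F(n)`,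
`n ∈ Bo b k D`.

(2) For a fixed polynomial `F` of total degree `d ≥ 2` this holds without any further condition, uniformly in the integers
`c` with `|c| ≤ B N` (`θ` depends on `r`, `b`, `B` and `F`). -/
theorem result (r : ℕ) (hr : 2 ≤ r) : ∃ (P : ℕ → ℝ[X]) (T : ℤ → ℝ[X]),
    (Density r P ∧ (∀ q, 1 ≤ q → (P q).natDegree = r - 1 ∧ (P q).leadingCoeff = κ (r - 1) q / ((r - 1).factorial : ℝ)) ∧
      ∀ ε : ℝ, 0 < ε → ∃ C : ℝ, ∀ q i : ℕ, 1 ≤ q → |(P q).coeff i| ≤ C * (q : ℝ) ^ (ε - 1)) ∧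
    (∀ h : ℤ, h ≠ 0 → (∀ u v : ℝ, Summable (fun q : ℕ => (ram (q + 1) h : ℝ) * ((P (q + 1)).eval u * (P (q + 1)).eval v))) ∧
      (∀ u : ℝ, (T h).eval u + (derivative (T h)).eval u = G P h u u) ∧
      (T h).natDegree = 2 * r - 2 ∧ (T h).leadingCoeff = 𝔖 r h / ((r - 1).factorial : ℝ) ^ 2) ∧
    (∀ b d B : ℕ, 2 ≤ b → 2 ≤ d → ∃ θ : ℝ, 0 < θ ∧ ∀ η : ℝ, 0 < η → η ≤ θ → ∃ k₀ : ℕ, ∀ k : ℕ, k₀ ≤ k →
      ∀ N : ℕ, b ^ (d * k) ≤ N → (N : ℝ) ≤ (b : ℝ) ^ ((1 + θ) * (d * k)) →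
      ∀ (J : Type) [Fintype J] [DecidableEq J] (D : J → ℕ → Finset ℕ), Digits b k D →
      ∀ F : MvPolynomial J ℤ, F.totalDegree = d →
      (∃ m : J →₀ ℕ, m.degree = d ∧ F.coeff m ≠ 0 ∧ |((F.coeff m : ℤ) : ℝ)| ≤ (b : ℝ) ^ (θ * k)) →
      ∀ c : ℤ, (∀ n ∈ Bo b k D, |c + val F n| ≤ B * N) →
        AlmostAll r N P T θ η (fun n : {n : J → ℕ // n ∈ Bo b k D} => c + val F n)) ∧
    (∀ (b B : ℕ), 2 ≤ b → ∀ (J : Type) [Fintype J] [DecidableEq J] (F : MvPolynomial J ℤ), 2 ≤ F.totalDegree →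
      ∃ θ : ℝ, 0 < θ ∧ ∀ η : ℝ, 0 < η → η ≤ θ → ∃ k₀ : ℕ, ∀ k : ℕ, k₀ ≤ k →
      ∀ N : ℕ, b ^ (F.totalDegree * k) ≤ N → (N : ℝ) ≤ (b : ℝ) ^ ((1 + θ) * (F.totalDegree * k)) →
      ∀ (D : J → ℕ → Finset ℕ), Digits b k D → ∀ c : ℤ, |c| ≤ B * N →
        AlmostAll r N P T θ η (fun n : {n : J → ℕ // n ∈ Bo b k D} => c + val F n)) := by
  classical
  obtain ⟨P, T, hA, hB, h1, _⟩ := Pool.Agent.Results.MP_122e00_nt.PowerSavingShifts.result r hr
  refine ⟨P, T, hA, hB, ?_⟩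
  have main : ∀ b d B : ℕ, 2 ≤ b → 2 ≤ d → ∃ θ : ℝ, 0 < θ ∧ ∀ η : ℝ, 0 < η → η ≤ θ → ∃ k₀ : ℕ, ∀ k : ℕ, k₀ ≤ k →
      ∀ N : ℕ, b ^ (d * k) ≤ N → (N : ℝ) ≤ (b : ℝ) ^ ((1 + θ) * (d * k)) →
      ∀ (J : Type) [Fintype J] [DecidableEq J] (D : J → ℕ → Finset ℕ), Digits b k D →
      ∀ F : MvPolynomial J ℤ, F.totalDegree = d →
      (∃ m : J →₀ ℕ, m.degree = d ∧ F.coeff m ≠ 0 ∧ |((F.coeff m : ℤ) : ℝ)| ≤ (b : ℝ) ^ (θ * k)) →
      ∀ c : ℤ, (∀ n ∈ Bo b k D, |c + val F n| ≤ B * N) →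
        AlmostAll r N P T θ η (fun n : {n : J → ℕ // n ∈ Bo b k D} => c + val F n) := by
    intro b d B hb hd
    obtain ⟨t, rfl⟩ : ∃ t, d = t + 2 := ⟨d - 2, by omega⟩
    obtain ⟨p, hp, hE⟩ := Pool.Agent.U108.PS.poly_pw b t hb
    obtain ⟨θ₀, hθ₀, h2⟩ := h1 p B
    obtain ⟨k₁, h3⟩ := hE θ₀ hθ₀
    refine ⟨θ₀ / 4, by linarith, fun η hη hηθ => ?_⟩
    obtain ⟨N₀, h4⟩ := h2 η hη (by linarith)
    refine ⟨N₀ + k₁ + 1, fun k hk N hN1 hN2 J _ _ D hD F hF hm c hc => ?_⟩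
    have hkb : k < b ^ ((t + 2) * k) := by
      calc k < b ^ k := Nat.lt_pow_self (by omega)
        _ ≤ _ := Nat.pow_le_pow_right (by omega) (by nlinarith)
    have h5 := h3 k (by omega) J D hD F hF.le hm N hN1 hN2
    have e : Pool.Agent.TH212.EH.En p (fun n : {n : J → ℕ // n ∈ Bo b k D} => c + val F n) =
        Pool.Agent.TH212.EH.En p (fun n : {n : J → ℕ // n ∈ Bo b k D} => val F n) := by
      have := Pool.Agent.R459.En_shift p (fun n : {n : J → ℕ // n ∈ Bo b k D} => val F n) c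
      simp only [add_comm c]
      exact this
    have h6 : (Pool.Agent.TH212.EH.En p (fun n : {n : J → ℕ // n ∈ Bo b k D} => c + val F n) : ℝ) * N ≤
        (N : ℝ) ^ θ₀ * (Fintype.card {n : J → ℕ // n ∈ Bo b k D} : ℝ) ^ (2 * p) := by
      rw [e]
      exact h5
    have h7 := h4 N (by omega) {n : J → ℕ // n ∈ Bo b k D} (fun n => c + val F n) (fun n => hc n n.2) h6
    exact almost_mono r N (by omega) P T θ₀ (θ₀ / 4) η (by linarith) _ h7
  refine ⟨main, ?_⟩
  intro b B hb J _ _ F hF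
  have hF0 : F ≠ 0 := by
    rintro rfl
    simp at hF
  obtain ⟨m, hm1, hm2⟩ := exists_top F hF0
  obtain ⟨B₁, hB₁⟩ := eval_le F F.totalDegree le_rfl
  obtain ⟨θ, hθ, h2⟩ := main b F.totalDegree (B + B₁) hb hF
  refine ⟨θ, hθ, fun η hη hηθ => ?_⟩
  obtain ⟨k₁, h3⟩ := h2 η hη hηθ
  have hb1 : (1 : ℝ) < b := by exact_mod_cast (by omega : 1 < b)
  have hb0 : (0 : ℝ) < b := by linarith
  have hten : Filter.Tendsto (fun n : ℕ => ((b : ℝ) ^ θ) ^ n) Filter.atTop Filter.atTop :=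
    tendsto_pow_atTop_atTop_of_one_lt (Real.one_lt_rpow hb1 hθ)
  obtain ⟨k₂, hk₂⟩ := Filter.eventually_atTop.1 (hten.eventually_ge_atTop |((F.coeff m : ℤ) : ℝ)|)
  refine ⟨k₁ + k₂, fun k hk N hN1 hN2 D hD c hc => ?_⟩
  refine h3 k (by omega) N hN1 hN2 J D hD F rfl ⟨m, hm1, hm2, ?_⟩ c ?_
  · refine (hk₂ k (by omega)).trans (le_of_eq ?_)
    rw [← Real.rpow_natCast, ← Real.rpow_mul hb0.le]
  · intro n hn
    have h4 := hB₁ b k n (by omega) (fun j => Bo_lt b k D n hn j)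
    have h5 : ((b : ℤ) ^ (F.totalDegree * k)) ≤ N := by exact_mod_cast hN1
    have h6 : |val F n| ≤ B₁ * N := by
      refine le_trans (by unfold Pool.Agent.U108.DP.val; exact h4) ?_
      exact mul_le_mul_of_nonneg_left (by exact_mod_cast hN1) (Int.natCast_nonneg _)
    calc |c + val F n| ≤ |c| + |val F n| := abs_add_le _ _
      _ ≤ B * N + B₁ * N := add_le_add hc h6
      _ = _ := by push_cast; ring

end Pool.Agent.Results.MP_122e00_nt.DigitPolynomialShifts
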