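import Pool.Agent.Results.MP_122e00_nt.PowerSavingShifts
import Pool.Agent.U108.PS.A

/-!
# Correlations of the divisor functions with a power saving, for almost all shifts among the multilinear values of thin
# families, in particular among the determinants of matrices with arbitrary entries off the diagonal

The shifts are `c u_1(i_1) ⋯ u_s(i_s) + R_1(i) + ⋯ + R_s(i)`, where `s ≥ 2`, `u_1, …, u_s` are arbitrary thin families and
`R_k` is an ARBITRARY function with integral values which does not depend on the `k`-th coordinate (for `s = 2`: the shifts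
`c u(i) v(j) + f(i) + g(j)` with arbitrary functions `f`, `g`); in particular the determinants of the `s × s` matrices whose
diagonal entries run through thin families, the entries off the diagonal being ARBITRARY fixed integers.

Definitions used: from `Pool.Agent.Results.MP_122e00_nt.PowerSavingShifts` (starting files): the divisor functions `d`, the
sums `D`, the Ramanujan sums `ram`, the densities `κ`, the singular series `𝔖`, `Density`, `G`, `main`, `Asymp`, `energy`.

Proof: the energy theorem `Pool.Agent.U108.ML.energy` (the functions `R_k` are removed by the inequalities of Cauchy, Schwarz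
and Hölder; the resulting multilinear sums are bounded by means of the energies of the families and of the divisor function),
and the theorem of the starting files on thin families.
-/

set_option autoImplicit false

namespace Pool.Agent.Results.MP_122e00_nt.MultilinearShifts

open Finset Polynomial Pool.Agent.Results.MP_122e00_nt.PowerSavingShifts

lemma asymp_mono (r N : ℕ) (hN : 1 ≤ N) (P : ℕ → ℝ[X]) (T : ℤ → ℝ[X]) (θ θ' η : ℝ) (hθ : θ' ≤ θ) (h : ℤ)
    (hA : Asymp r N P T θ η h) : Asymp r N P T θ' η h := by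
  intro x hx
  obtain ⟨h1, h2⟩ := hA x hx
  exact ⟨h1.trans (Real.rpow_le_rpow_of_exponent_le (by exact_mod_cast hN) (by linarith)), h2⟩

/-- `u` is a finite family of integers in `[-M, M]`, and its energy of order `h` is at most `Q ^ θ` times
`(number of the elements) ^ (2 h) / M`. -/
def Thin (h Q M : ℕ) (θ : ℝ) {ι : Type} [Fintype ι] (u : ι → ℤ) : Prop :=
  (∀ i, |u i| ≤ M) ∧ (energy h u : ℝ) * M ≤ (Q : ℝ) ^ θ * (Fintype.card ι : ℝ) ^ (2 * h)

open Classical in
/-- The asymptotic formula `Asymp r N P T θ η h` holds for `h = v(i) ≠ 0`, for all `i` with at most `N ^ (-θ) #ι` exceptions. -/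
def AlmostAll (r N : ℕ) (P : ℕ → ℝ[X]) (T : ℤ → ℝ[X]) (θ η : ℝ) {ι : Type} [Fintype ι] (v : ι → ℤ) : Prop :=
  ((univ.filter (fun i : ι => v i ≠ 0 ∧ ¬ Asymp r N P T θ η (v i))).card : ℝ) ≤ (N : ℝ) ^ (-θ) * Fintype.card ι

lemma almost_mono (r N : ℕ) (hN : 1 ≤ N) (P : ℕ → ℝ[X]) (T : ℤ → ℝ[X]) (θ θ' η : ℝ) (hθ : θ' ≤ θ) {ι : Type} [Fintype ι]
    (v : ι → ℤ) (h : AlmostAll r N P T θ η v) : AlmostAll r N P T θ' η v := by
  classical
  unfold AlmostAll at h ⊢
  have h1 : ((univ.filter (fun i : ι => v i ≠ 0 ∧ ¬ Asymp r N P T θ' η (v i))).card : ℝ) ≤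
      ((univ.filter (fun i : ι => v i ≠ 0 ∧ ¬ Asymp r N P T θ η (v i))).card : ℝ) := by
    apply Nat.cast_le.2
    apply card_le_card
    intro i hi
    rw [mem_filter] at hi ⊢
    exact ⟨mem_univ _, hi.2.1, fun hg => hi.2.2 (asymp_mono r N hN P T θ θ' η hθ (v i) hg)⟩
  refine h1.trans (h.trans ?_)
  apply mul_le_mul_of_nonneg_right _ (Nat.cast_nonneg _)
  exact Real.rpow_le_rpow_of_exponent_le (by exact_mod_cast hN) (by linarith)

open Classical in
/-- Let `r ≥ 2`. There are polynomials `P_q` (`q ≥ 1`) and `T_h` (`h ≠ 0`) with the following properties.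

(0) `P_q` is the density of `d_r(n) e(b n / q)`, `(b, q) = 1`; it has degree `r - 1`, leading coefficient
`κ_{r - 1}(q) / (r - 1)!`, and coefficients `O(q ^ (ε - 1))`. For `h ≠ 0` the series `G_h(u, v) = ∑ c_q(h) P_q(u) P_q(v)`
converges absolutely; `T_h(u) + T_h'(u) = G_h(u, u)`; `T_h` has degree `2 r - 2` and leading coefficient
`𝔖_r(h) / ((r - 1)!) ^ 2`.

`AlmostAll` below means: for all the shifts `h = v(i) ≠ 0` of the family `v`, except for at most the share `N ^ (-θ)`, for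
ALL `x ≤ N`: `D_r(x; h) = ∑ G_h(log n, log(n + h)) + O(N ^ (1 - θ))` (the sum over `n ≤ x` with `n + h ≥ 1`) and, if
`|h| ≤ N ^ (1 - η)`, `D_r(x; h) = x T_h(log x) + O(N ^ (1 - η / 8))`, with implied constants `1`.

(1) Let `h ≥ 1`, `s ≥ 2`, `m` and `B` be fixed. There is `θ > 0` such that for every `0 < η ≤ θ` and every large `Q`: let
`Q = M_1 ⋯ M_s` with `(M_k) ^ m ≥ Q` for all `k`, let `Q ≤ N ≤ Q ^ (1 + θ)`, and let `u_k` be finite families with
`Thin h Q (M_k) θ (u_k)`. Then `AlmostAll` holds for the family of the `v(i) = c ∏ u_k(i_k) + ∑ R_k(i)`,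
`i ∈ I_1 × ⋯ × I_s`, where `c ≠ 0` is an integer, `|c| ≤ Q ^ θ`, and `R_k` is an arbitrary integral function which does not
depend on the `k`-th coordinate, if `|v(i)| ≤ B N` for all `i`; and for the family of the determinants of the matrices with
the diagonal entries `u_k(i_k)` and arbitrary fixed integers off the diagonal, if `|v(i)| ≤ B N` for all `i`. -/
theorem result (r : ℕ) (hr : 2 ≤ r) : ∃ (P : ℕ → ℝ[X]) (T : ℤ → ℝ[X]),
    (Density r P ∧ (∀ q, 1 ≤ q → (P q).natDegree = r - 1 ∧ (P q).leadingCoeff = κ (r - 1) q / ((r - 1).factorial : ℝ)) ∧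
      ∀ ε : ℝ, 0 < ε → ∃ C : ℝ, ∀ q i : ℕ, 1 ≤ q → |(P q).coeff i| ≤ C * (q : ℝ) ^ (ε - 1)) ∧
    (∀ h : ℤ, h ≠ 0 → (∀ u v : ℝ, Summable (fun q : ℕ => (ram (q + 1) h : ℝ) * ((P (q + 1)).eval u * (P (q + 1)).eval v))) ∧
      (∀ u : ℝ, (T h).eval u + (derivative (T h)).eval u = G P h u u) ∧
      (T h).natDegree = 2 * r - 2 ∧ (T h).leadingCoeff = 𝔖 r h / ((r - 1).factorial : ℝ) ^ 2) ∧
    (∀ h s m B : ℕ, 1 ≤ h → 2 ≤ s → ∃ θ : ℝ, 0 < θ ∧ ∀ η : ℝ, 0 < η → η ≤ θ → ∃ Q₀ : ℕ, ∀ Q : ℕ, Q₀ ≤ Q →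
      ∀ M : Fin s → ℕ, ∏ k, M k = Q → (∀ k, Q ≤ M k ^ m) → ∀ N : ℕ, Q ≤ N → (N : ℝ) ≤ (Q : ℝ) ^ (1 + θ) →
      ∀ (I : Fin s → Type) [∀ k, Fintype (I k)] (u : ∀ k, I k → ℤ), (∀ k, Thin h Q (M k) θ (u k)) →
      (∀ c : ℤ, c ≠ 0 → |(c : ℝ)| ≤ (Q : ℝ) ^ θ → ∀ R : Fin s → (∀ k, I k) → ℤ,
        (∀ k i x, R k (Function.update i k x) = R k i) → (∀ i : ∀ k, I k, |c * ∏ k, u k (i k) + ∑ k, R k i| ≤ B * N) →
        AlmostAll r N P T θ η (fun i : ∀ k, I k => c * ∏ k, u k (i k) + ∑ k, R k i)) ∧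
      (∀ A : Matrix (Fin s) (Fin s) ℤ,
        (∀ i : ∀ k, I k, |(Matrix.of fun k l => if k = l then u k (i k) else A k l).det| ≤ B * N) →
        AlmostAll r N P T θ η (fun i : ∀ k, I k => (Matrix.of fun k l => if k = l then u k (i k) else A k l).det))) := by
  obtain ⟨P, T, hA, hB, h1, _⟩ := Pool.Agent.Results.MP_122e00_nt.PowerSavingShifts.result r hr
  refine ⟨P, T, hA, hB, ?_⟩
  intro h s m B hh hs
  obtain ⟨t, rfl⟩ : ∃ t, s = t + 2 := ⟨s - 2, by omega⟩
  obtain ⟨p, hp, hE⟩ := Pool.Agent.U108.PS.ml_pw h t (m + 2) hh (by omega)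
  obtain ⟨θ₀, hθ₀, h2⟩ := h1 p B
  obtain ⟨θ, hθ, hθ4, P₀, h3⟩ := hE θ₀ hθ₀
  refine ⟨θ, hθ, fun η hη hηθ => ?_⟩
  obtain ⟨N₀, h4⟩ := h2 η hη (by linarith)
  refine ⟨N₀ + P₀ + 3, fun Q hQ M hM hMm N hN1 hN2 I _ u hu => ?_⟩
  have hMm' : ∀ k, Q ≤ M k ^ (m + 2) := by
    intro k
    have hM0 : 0 < M k := by
      rcases Nat.eq_zero_or_pos (M k) with h0 | h0
      · have : ∏ k, M k = 0 := prod_eq_zero (mem_univ k) h0
        omega
      · exact h0
    exact (hMm k).trans (Nat.pow_le_pow_right hM0 (by omega))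
  have main : ∀ c : ℤ, c ≠ 0 → |(c : ℝ)| ≤ (Q : ℝ) ^ θ → ∀ R : Fin (t + 2) → (∀ k, I k) → ℤ,
      (∀ k i x, R k (Function.update i k x) = R k i) → (∀ i : ∀ k, I k, |c * ∏ k, u k (i k) + ∑ k, R k i| ≤ B * N) →
      AlmostAll r N P T θ η (fun i : ∀ k, I k => c * ∏ k, u k (i k) + ∑ k, R k i) := by
    intro c hc hcB R hR hv
    have h5 := h3 Q (by omega) M hM hMm' I u (fun k => (hu k).1) (fun k => (hu k).2) c hc hcB R hR N hN1 hN2
    have h6 := h4 N (by omega) (∀ k, I k) (fun i : ∀ k, I k => c * ∏ k, u k (i k) + ∑ k, R k i) hv h5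
    exact almost_mono r N (by omega) P T θ₀ θ η (by linarith) _ h6
  refine ⟨main, ?_⟩
  intro A hv
  obtain ⟨R, hR1, hR2⟩ := Pool.Agent.U108.ML.det_withDiag (by omega : 1 ≤ t + 2) A
  have e : ∀ i : ∀ k, I k, (Matrix.of fun k l => if k = l then u k (i k) else A k l).det =
      1 * ∏ k, u k (i k) + ∑ k, R k (fun k => u k (i k)) := by
    intro i
    rw [one_mul]
    exact hR2 (fun k => u k (i k))
  have e2 : (fun i : ∀ k, I k => (Matrix.of fun k l => if k = l then u k (i k) else A k l).det) =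
      (fun i : ∀ k, I k => 1 * ∏ k, u k (i k) + ∑ k, R k (fun k => u k (i k))) := funext e
  rw [e2]
  refine main 1 one_ne_zero ?_ (fun k i => R k (fun k => u k (i k))) ?_ ?_
  · rw [Int.cast_one, abs_one]
    exact Real.one_le_rpow (by exact_mod_cast (by omega : 1 ≤ Q)) hθ.le
  · intro k i x
    have h2 : (fun l => u l (Function.update i k x l)) = Function.update (fun l => u l (i l)) k (u k x) := by
      funext l
      by_cases hl : l = k
      · subst hl
        rw [Function.update_self, Function.update_self]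
      · rw [Function.update_of_ne hl, Function.update_of_ne hl]
    rw [h2, hR1]
  · intro i
    have := hv i
    rw [e i] at this
    exact this

end Pool.Agent.Results.MP_122e00_nt.MultilinearShifts
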