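import Pool.Agent.TH212.PS.P13
import Pool.Agent.TH935.LP.W9
import Pool.Agent.U471.RP.PowNear

/-!
# Correlations of the divisor functions with a power saving, for all shifts near almost all values of real polynomials

Let `f` be a real polynomial of degree at most `k` whose coefficient of `t ^ k` lies between `N ^ (-δ)` and `N ^ δ`, with
`|f(m)| ≤ B N` for `m = 1, …, x`, where `x ^ k ≥ N ^ (1 - δ)`; the other coefficients are arbitrary. For all but `x N ^ (-δ)` of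
the `m ≤ x`, ALL the shifts `h ≠ 0` with `|h - f(m)| ≤ N ^ δ` satisfy the asymptotic formula of the problem with a power
saving, for all lengths up to `N`. The theorem is uniform in `f`.

Proof: an inverse theorem for Weyl sums (`Pool.Agent.H373R2.NB.IW_all`) shows that the integers near the values have, up to
a small power of `N`, the least possible additive energy of some order (`Pool.Agent.U471.RP.energy_real`); then the theorem of
the starting files on families of shifts of small energy (`Pool.Agent.TH212.PS.fam_final`) is applied for every distance of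
the shift from the integer part of `f(m)` (`Pool.Agent.U471.RP.pow_near`). The definitions (up to `Asymp`) are those of the
starting file `PowerSavingShifts` of this problem.
-/

set_option autoImplicit false

namespace Pool.Agent.Results.MP_122e00_nt.RealPolynomialShifts

open Finset Polynomial

/-- `d_r(n)`: the number of the ordered `r`-tuples of positive integers with product `n` (and `d_r(0) = 0`) -/
def d (r n : ℕ) : ℕ := ((ArithmeticFunction.zeta : ArithmeticFunction ℕ) ^ r) n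

/-- `D_r(x; h)`: the sum of `d_r(n) d_r(n + h)` over `1 ≤ n ≤ x`, with `d_r(m) = 0` for `m ≤ 0` -/
noncomputable def D (r x : ℕ) (h : ℤ) : ℝ := ∑ n ∈ Icc 1 x, (d r n : ℝ) * d r ((n : ℤ) + h).toNat

/-- `e(t) = exp(2 π i t)` -/
noncomputable def e (t : ℝ) : ℂ := Complex.exp (2 * Real.pi * Complex.I * t)

/-- The Ramanujan sum `c_q(h)`: the sum of `μ(q / g) g` over the common divisors `g` of `q` and `h`. -/
def ram (q : ℕ) (h : ℤ) : ℤ := ∑ g ∈ q.divisors.filter (fun g : ℕ => (g : ℤ) ∣ h), ArithmeticFunction.moebius (q / g) * g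

/-- `κ_s(q)`: the proportion of the `s`-tuples of residues `0 ≤ a < q` whose product is divisible by `q` -/
noncomputable def κ (s q : ℕ) : ℝ := (Nat.card {a : Fin s → Fin q // q ∣ ∏ i, (a i : ℕ)} : ℝ) / (q : ℝ) ^ s

/-- The singular series `𝔖_r(h)`: the sum of `κ_{r - 1}(q) ^ 2 c_q(h)` over the `q ≥ 1`. -/
noncomputable def 𝔖 (r : ℕ) (h : ℤ) : ℝ := ∑' q : ℕ, κ (r - 1) (q + 1) ^ 2 * (ram (q + 1) h : ℝ)

/-- The polynomials `P_q`, `q ≥ 1`, are the densities of `d_r(n) e(b n / q)`, `(b, q) = 1`, with a power saving. -/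
def Density (r : ℕ) (P : ℕ → ℝ[X]) : Prop := ∃ C A δ : ℝ, 0 < δ ∧ ∀ q b x : ℕ, 1 ≤ q → b.Coprime q → 1 ≤ x →
  ‖∑ n ∈ Icc 1 x, (d r n : ℂ) * e ((b : ℝ) * n / q) - ((∑ n ∈ Icc 1 x, (P q).eval (Real.log n) : ℝ) : ℂ)‖ ≤
    C * (q : ℝ) ^ A * (x : ℝ) ^ (1 - δ)

/-- the series `∑ c_q(h) P_q(u) P_q(v)` over the `q ≥ 1` -/
noncomputable def G (P : ℕ → ℝ[X]) (h : ℤ) (u v : ℝ) : ℝ :=
  ∑' q : ℕ, (ram (q + 1) h : ℝ) * ((P (q + 1)).eval u * (P (q + 1)).eval v)

/-- the main term: the sum of `G (log n) (log (n + h))` over the `n` with `1 ≤ n ≤ x` and `n + h ≥ 1` -/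
noncomputable def main (P : ℕ → ℝ[X]) (x : ℕ) (h : ℤ) : ℝ :=
  ∑ n ∈ (Icc 1 x).filter (fun n : ℕ => 1 ≤ (n : ℤ) + h), G P h (Real.log n) (Real.log ((n : ℝ) + h))

/-- For ALL `x ≤ N`: `D_r(x; h)` is the main term up to `N ^ (1 - θ)` and, if `|h| ≤ N ^ (1 - η)`, it is
`x T_h(log x)` up to `N ^ (1 - η / 8)`. -/
def Asymp (r N : ℕ) (P : ℕ → ℝ[X]) (T : ℤ → ℝ[X]) (θ η : ℝ) (h : ℤ) : Prop := ∀ x : ℕ, x ≤ N →
  |D r x h - main P x h| ≤ (N : ℝ) ^ (1 - θ) ∧
    ((|h| : ℝ) ≤ (N : ℝ) ^ (1 - η) → |D r x h - x * (T h).eval (Real.log x)| ≤ (N : ℝ) ^ (1 - η / 8))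

theorem κ_eq (s q : ℕ) (hq : 1 ≤ q) : κ s q = Pool.Agent.TH212.DV.kap s q := Pool.Agent.TH212.DV.kap_card s q hq

theorem ram_eq (q : ℕ) (h : ℤ) : ram q h = Pool.Agent.TH212.DV.cz q h := rfl

theorem 𝔖_eq (t : ℕ) (h : ℤ) (hh : h ≠ 0) : 𝔖 (t + 2) h = Pool.Agent.TH212.DV.Sing (t + 1) h.natAbs := by
  have h1 := Pool.Agent.TH212.DV.sing_summable t h.natAbs (by omega)
  unfold 𝔖 Pool.Agent.TH212.DV.Sing
  rw [h1.tsum_eq_zero_add, Pool.Agent.TH212.DV.cz_zero_left, Int.cast_zero, mul_zero, zero_add]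
  apply tsum_congr
  intro q
  rw [κ_eq _ _ (Nat.succ_pos q), ram_eq, Pool.Agent.TH212.PS.cz_natAbs]
  rfl

theorem D_eq (r x : ℕ) (h : ℤ) : D r x h = Pool.Agent.TH212.PS.Dr r x h := rfl

theorem G_eq (t : ℕ) (P : ℕ → ℝ[X]) (hP : Pool.Agent.TH212.PS.HW t P) (h : ℤ) (hh : h ≠ 0) (u v : ℝ) :
    G P h u v = ∑' q : ℕ, (Pool.Agent.TH212.DV.cz q h : ℝ) * ((P q).eval u * (P q).eval v) := by
  have h1 := Pool.Agent.TH212.PS.series_summable t P hP h hh u v
  rw [h1.tsum_eq_zero_add, Pool.Agent.TH212.DV.cz_zero_left, Int.cast_zero, zero_mul, zero_add]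
  rfl

theorem main_eq (t : ℕ) (P : ℕ → ℝ[X]) (hP : Pool.Agent.TH212.PS.HW t P) (x : ℕ) (h : ℤ) (hh : h ≠ 0) :
    main P x h = Pool.Agent.TH212.PS.Mf P x h := by
  unfold main Pool.Agent.TH212.PS.Mf
  rw [sum_filter]
  apply sum_congr rfl
  intro n _
  split_ifs with hc
  · rw [G_eq t P hP h hh]
    have e1 : ((((n : ℤ) + h).toNat : ℕ) : ℝ) = (n : ℝ) + h := by
      have : ((((n : ℤ) + h).toNat : ℕ) : ℤ) = (n : ℤ) + h := Int.toNat_of_nonneg (by omega)
      exact_mod_cast this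
    rw [e1]
  · rfl

theorem asymp_of (t N : ℕ) (P : ℕ → ℝ[X]) (hP : Pool.Agent.TH212.PS.HW t P) (θ η : ℝ) (h : ℤ) (hh : h ≠ 0)
    (hg : Pool.Agent.TH212.PS.GoodP t N P θ η h) : Asymp (t + 2) N P (Pool.Agent.TH212.PS.Th t P) θ η h := by
  intro x hx
  rw [main_eq t P hP x h hh, D_eq]
  exact hg x hx

theorem exists_P (t : ℕ) : ∃ P : ℕ → ℝ[X], Pool.Agent.TH212.PS.HW t P ∧
    (∀ q, 1 ≤ q → (P q).coeff (t + 1) = Pool.Agent.TH212.DV.kap (t + 1) q / ((t + 1).factorial : ℝ)) ∧ Density (t + 2) P := by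
  obtain ⟨P, h1, h2, h3, C, A, δ, hδ, h4⟩ := Pool.Agent.TH935.LP.W_full (t + 2) (by omega)
  refine ⟨P, ⟨fun q => (h1 q).trans (by omega), ?_⟩, h2, C, A, δ, hδ, fun q b x hq hb hx => ?_⟩
  · obtain ⟨C', A', δ', hδ', h5⟩ := h3 (4 * (t + 2))
    refine ⟨|C'|, |A'|, δ', abs_nonneg _, abs_nonneg _, hδ', fun q Y n hq hY hn1 hn2 => (h5 q Y n hq hY hn1 hn2).trans ?_⟩
    have hq1 : (1 : ℝ) ≤ q := by exact_mod_cast hq
    apply mul_le_mul_of_nonneg_right _ (by positivity)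
    exact mul_le_mul (le_abs_self _) (Real.rpow_le_rpow_of_exponent_le hq1 (le_abs_self _)) (by positivity) (abs_nonneg _)
  · have h5 := h4 q b x hq hb hx
    have e1 : ∑ n ∈ Icc 1 x, (d (t + 2) n : ℂ) * e ((b : ℝ) * n / q) =
        ∑ n ∈ Icc 1 x, (Pool.Agent.TH935.LD.dk (t + 2) n : ℂ) * Complex.exp (2 * Real.pi * Complex.I * (b * n / q)) := by
      apply sum_congr rfl
      intro n _
      unfold e
      push_cast
      rfl
    rw [e1]
    exact h5

/-- The real polynomials `f` of degree at most `k`, with `N ^ (-δ) ≤ f_k ≤ N ^ δ` for the coefficient `f_k` of `t ^ k`, and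
with `|f(m)| ≤ B N` for `m = 1, …, x`, where `x ^ k ≥ N ^ (1 - δ)`. -/
structure Normal (k B N x : ℕ) (δ : ℝ) (f : ℝ[X]) : Prop where
  degree : f.natDegree ≤ k
  lower : (N : ℝ) ^ (-δ) ≤ f.coeff k
  upper : f.coeff k ≤ (N : ℝ) ^ δ
  length : (N : ℝ) ^ (1 - δ) ≤ (x : ℝ) ^ k
  values : ∀ m ∈ Icc 1 x, |f.eval (m : ℝ)| ≤ B * N

open Classical in
/-- The number of the `m ≤ x` such that some shift `h ≠ 0` with `|h - f(m)| ≤ N ^ δ` does not have the property `Asymp`. -/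
noncomputable def exceptions (r N : ℕ) (P : ℕ → ℝ[X]) (T : ℤ → ℝ[X]) (θ η δ : ℝ) (x : ℕ) (f : ℝ[X]) : ℕ :=
  ((Icc 1 x).filter (fun m : ℕ => ∃ h : ℤ, h ≠ 0 ∧ |(h : ℝ) - f.eval (m : ℝ)| ≤ (N : ℝ) ^ δ ∧
    ¬ Asymp r N P T θ η h)).card

/-- **Correlations of the divisor functions for all the shifts near the values of real polynomials.** Let `r ≥ 2`. There are
polynomials `P_q` (`q ≥ 1`) and `T_h` (`h ≠ 0`) with the following properties.

(0) As in the starting file: `P_q` is the density of `d_r(n) e(b n / q)`, `(b, q) = 1`, with a power saving; for `h ≠ 0` the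
series `G_h(u, v) = ∑ c_q(h) P_q(u) P_q(v)` converges absolutely; `T_h(u) + T_h'(u) = G_h(u, u)`, so that `y T_h(log y)` has the
derivative `G_h(log y, log y)`; `T_h` has degree `2 r - 2` and leading coefficient `𝔖_r(h) / ((r - 1)!) ^ 2`.

(1) For all `k ≥ 1` and `B` there are `θ > 0` and `0 < δ ≤ θ` such that for every `0 < η ≤ θ` and every large `N`, all `x` and
ALL real polynomials `f` with `Normal k B N x δ f`: for all but at most `x N ^ (-δ)` of the `m ≤ x`, ALL the integers `h ≠ 0`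
with `|h - f(m)| ≤ N ^ δ` satisfy, for ALL `y ≤ N`, `D_r(y; h) = ∑ G_h(log n, log(n + h)) + O(N ^ (1 - θ))` (the sum over the
`n ≤ y` with `n + h ≥ 1`) and, if `|h| ≤ N ^ (1 - η)`, `D_r(y; h) = y T_h(log y) + O(N ^ (1 - η / 8))`. -/
theorem result (r : ℕ) (hr : 2 ≤ r) : ∃ (P : ℕ → ℝ[X]) (T : ℤ → ℝ[X]),
    (Density r P ∧ ∀ q, 1 ≤ q → (P q).natDegree = r - 1 ∧ (P q).leadingCoeff = κ (r - 1) q / ((r - 1).factorial : ℝ)) ∧
    (∀ h : ℤ, h ≠ 0 → (∀ u v : ℝ, Summable (fun q : ℕ => (ram (q + 1) h : ℝ) * ((P (q + 1)).eval u * (P (q + 1)).eval v))) ∧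
      (∀ u : ℝ, (T h).eval u + (derivative (T h)).eval u = G P h u u) ∧
      (T h).natDegree = 2 * r - 2 ∧ (T h).leadingCoeff = 𝔖 r h / ((r - 1).factorial : ℝ) ^ 2) ∧
    (∀ k : ℕ, 1 ≤ k → ∀ B : ℕ, ∃ θ δ : ℝ, 0 < θ ∧ 0 < δ ∧ δ ≤ θ ∧ ∀ η : ℝ, 0 < η → η ≤ θ → ∃ N₀ : ℕ, ∀ N : ℕ, N₀ ≤ N →
      ∀ (x : ℕ) (f : ℝ[X]), Normal k B N x δ f → (exceptions r N P T θ η δ x f : ℝ) ≤ x * (N : ℝ) ^ (-δ)) := by
  classical
  obtain ⟨t, rfl⟩ : ∃ t, r = t + 2 := ⟨r - 2, by omega⟩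
  obtain ⟨P, hP, hlead, hdens⟩ := exists_P t
  have e0 : t + 2 - 1 = t + 1 := by omega
  have e2 : 2 * (t + 2) - 2 = 2 * t + 2 := by omega
  refine ⟨P, Pool.Agent.TH212.PS.Th t P, ⟨hdens, ?_⟩, ?_, ?_⟩
  · intro q hq
    rw [e0]
    have hk := Pool.Agent.TH212.PS.kap_pos t q hq
    have hc := hlead q hq
    have hne : (P q).coeff (t + 1) ≠ 0 := by
      rw [hc]
      positivity
    have hd : (P q).natDegree = t + 1 := le_antisymm (hP.deg q) (le_natDegree_of_ne_zero hne)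
    refine ⟨hd, ?_⟩
    unfold leadingCoeff
    rw [hd, hc, κ_eq _ _ hq]
  · intro h hh
    refine ⟨fun u v => ?_, fun u => ?_, ?_, ?_⟩
    · exact (summable_nat_add_iff 1).2 (Pool.Agent.TH212.PS.series_summable t P hP h hh u v)
    · rw [G_eq t P hP h hh]
      exact Pool.Agent.TH212.PS.Th_eq t P hP h hh u
    · rw [e2]
      exact (Pool.Agent.TH212.PS.Th_full t P hlead h hh).1
    · rw [e0, 𝔖_eq t h hh]
      exact (Pool.Agent.TH212.PS.Th_full t P hlead h hh).2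
  · intro k hk B
    obtain ⟨p, hp, hnear⟩ := Pool.Agent.U471.RP.pow_near k hk
    obtain ⟨θ, hθ, _, h1⟩ := Pool.Agent.TH212.PS.fam_final t P hP p (B + 1)
    obtain ⟨δ, hδ, hδθ, hnear'⟩ := hnear θ hθ
    refine ⟨θ, δ, hθ, hδ, by linarith, fun η hη hηθ => ?_⟩
    obtain ⟨N₁, h2⟩ := h1 η hη hηθ
    obtain ⟨N₀, h0⟩ := hnear' B (Θ := Unit) (fun _ _ => True)
      (fun N _ h => h ≠ 0 ∧ ¬ Asymp (t + 2) N P (Pool.Agent.TH212.PS.Th t P) θ η h) N₁
      (fun N hN _ _ x s hs hE S hSx hS => by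
        have h3 := h2 N hN (Fin x) (fun i : Fin x => s ((i : ℕ) + 1)) (fun i => by
          exact_mod_cast hs ((i : ℕ) + 1) (mem_Icc.2 ⟨by omega, by omega⟩)) (by
          rw [Fintype.card_fin]; exact hE)
        rw [Fintype.card_fin, mul_comm] at h3
        refine le_trans ?_ h3
        apply Nat.cast_le.2
        have h4 : S ⊆ (univ.filter (fun i : Fin x => s ((i : ℕ) + 1) ≠ 0 ∧
            ¬ Pool.Agent.TH212.PS.GoodP t N P θ η (s ((i : ℕ) + 1)))).image (fun i : Fin x => (i : ℕ) + 1) := by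
          intro m hm
          have h5 := mem_Icc.1 (hSx hm)
          have e : m - 1 + 1 = m := by omega
          rw [mem_image]
          refine ⟨⟨m - 1, by omega⟩, ?_, e⟩
          rw [mem_filter]
          simp only [e]
          obtain ⟨h6, h7⟩ := hS m hm
          exact ⟨mem_univ _, h6, fun hg => h7 (asymp_of t N P hP θ η (s m) h6 hg)⟩
        refine (card_le_card h4).trans (card_image_le.trans (le_of_eq ?_))
        congr!)
    refine ⟨N₀, fun N hN x f hf => ?_⟩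
    unfold exceptions
    refine h0 N hN () trivial x f ⟨hf.degree, hf.lower, hf.upper, hf.length, hf.values⟩ _ (filter_subset _ _) ?_
    intro m hm
    rw [mem_filter] at hm
    obtain ⟨_, h, h5, h6, h7⟩ := hm
    exact ⟨h, h6, h5, h7⟩

end Pool.Agent.Results.MP_122e00_nt.RealPolynomialShifts
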